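import Pool.Agent.H6.Squares.Main

namespace Pool.Agent.Results.MP_cfd668_nt.FullRange

/-- Let `N ≥ 2` be an integer and `E` a set of squares `k²` with `1 ≤ k ≤ N`. For all complex
coefficients `c n` the fourth moment of `∑_{n ∈ E} c n e(n θ)` is at most
`4000 log N (∑_{n ∈ E} |c n|²)²`. -/
theorem result (N : ℕ) (hN : 2 ≤ N) (E : Finset ℤ)
    (hE : ∀ n ∈ E, ∃ k : ℤ, n = k ^ 2 ∧ 1 ≤ k ∧ k ≤ N) (c : ℤ → ℂ) :
    ∫ θ in (0 : ℝ)..1, ‖∑ n ∈ E, c n * Complex.exp (2 * Real.pi * Complex.I * n * θ)‖ ^ 4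
      ≤ 4000 * Real.log N * (∑ n ∈ E, ‖c n‖ ^ 2) ^ 2 :=
  Pool.Agent.H6.Squares.full_main N hN E hE c

end Pool.Agent.Results.MP_cfd668_nt.FullRange
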