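import Pool.Agent.H6.Squares.Main

namespace Pool.Agent.Results.MP_cfd668_nt.ShortWindow

/-- Let `N ≥ 1` be an integer, `L ≥ 3` real and `E` a finite set of squares `k²` with
`N ≤ k ≤ N + N / L`. For all complex coefficients `c n` the fourth moment of
`∑_{n ∈ E} c n e(n θ)` is at most `(2 + 6 log (2 N) / log L) (∑_{n ∈ E} |c n|²)²`. -/
theorem result (N : ℕ) (hN : 1 ≤ N) (L : ℝ) (hL : 3 ≤ L) (E : Finset ℤ)
    (hE : ∀ n ∈ E, ∃ k : ℤ, n = k ^ 2 ∧ (N : ℝ) ≤ k ∧ (k : ℝ) ≤ N + N / L) (c : ℤ → ℂ) :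
    ∫ θ in (0 : ℝ)..1, ‖∑ n ∈ E, c n * Complex.exp (2 * Real.pi * Complex.I * n * θ)‖ ^ 4
      ≤ (2 + 6 * (Real.log (2 * N) / Real.log L)) * (∑ n ∈ E, ‖c n‖ ^ 2) ^ 2 :=
  Pool.Agent.H6.Squares.short_main N hN L hL E hE c

end Pool.Agent.Results.MP_cfd668_nt.ShortWindow
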